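import Pool.Agent.Y198.EX.Stm

/-!
# The ring `RR D` is henselian
-/

set_option autoImplicit false

namespace Pool.Agent.Y275.EX

open Pool.Agent.H42R3.FS

theorem t : ∀ (p : ℕ) [Fact p.Prime] (D : Dat p), HenselianLocalRing (RR D) := by
  intro p _ D
  refine { is_henselian := fun f hf a₀ h1 h2 => ?_ }
  have hex : ∀ g : RR D, ∃ n, ∀ i, PowerSeries.coeff i (g : PowerSeries D.L) ∈ D.Ln n :=
    fun g => g.2.1
  choose N hN using hex
  obtain ⟨n, hna, hnf⟩ : ∃ n, N a₀ ≤ n ∧ ∀ i, i ≤ f.natDegree → N (f.coeff i) ≤ n := by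
    refine ⟨max (N a₀) ((Finset.range (f.natDegree + 1)).sup fun i => N (f.coeff i)),
      le_max_left _ _, fun i hi => ?_⟩
    exact (Finset.le_sup (f := fun i => N (f.coeff i))
      (Finset.mem_range.2 (Nat.lt_succ_of_le hi))).trans (le_max_right _ _)
  obtain ⟨ι, hι⟩ : ∃ ι : PowerSeries (D.Ln n) →+* PowerSeries D.L,
      ι = PowerSeries.map (D.Ln n).subtype := ⟨_, rfl⟩
  have hιc : ∀ (g : PowerSeries (D.Ln n)) (i : ℕ),
      PowerSeries.coeff i (ι g) = (PowerSeries.coeff i g : D.Ln n) := by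
    intro g i
    rw [hι, PowerSeries.coeff_map]
    rfl
  have hrange : ∀ g : PowerSeries D.L, (∀ i, PowerSeries.coeff i g ∈ D.Ln n) →
      g ∈ Set.range ι := by
    intro g hg
    refine ⟨PowerSeries.mk fun i => ⟨PowerSeries.coeff i g, hg i⟩, ?_⟩
    ext i
    rw [hιc, PowerSeries.coeff_mk]
  have hlift : (f.map (RR D).subtype) ∈ Polynomial.lifts ι := by
    rw [Polynomial.lifts_iff_coeff_lifts]
    intro i
    apply hrange
    intro j
    rw [Polynomial.coeff_map]
    by_cases hi : i ≤ f.natDegree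
    · exact D.mono (hnf i hi) (hN (f.coeff i) j)
    · rw [Polynomial.coeff_eq_zero_of_natDegree_lt (not_le.mp hi), map_zero, map_zero]
      exact zero_mem _
  obtain ⟨G, hG, -, hGm⟩ := Polynomial.lifts_and_natDegree_eq_and_monic hlift (hf.map _)
  obtain ⟨b₀, hb₀⟩ := hrange (a₀ : PowerSeries D.L) (fun i => D.mono hna (hN a₀ i))
  have hev : ∀ (F : Polynomial (RR D)) (H : Polynomial (PowerSeries (D.Ln n))),
      H.map ι = F.map (RR D).subtype → ∀ (b : PowerSeries (D.Ln n)) (a : RR D),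
      ι b = (a : PowerSeries D.L) → ι (H.eval b) = ((F.eval a : RR D) : PowerSeries D.L) := by
    intro F H hFH b a hab
    rw [← Polynomial.eval_map_apply, hFH, hab]
    exact Polynomial.eval_map_apply (f := (RR D).subtype) a
  have hder : G.derivative.map ι = f.derivative.map (RR D).subtype := by
    rw [← Polynomial.derivative_map, hG, Polynomial.derivative_map]
  have h3 : G.eval b₀ ∈ Ideal.span {(PowerSeries.X : PowerSeries (D.Ln n))} := by
    rw [Ideal.mem_span_singleton, PowerSeries.X_dvd_iff]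
    apply Subtype.ext
    rw [mem_max_iff, ← hev f G hG b₀ a₀ hb₀, hιc] at h1
    rw [← PowerSeries.coeff_zero_eq_constantCoeff_apply]
    exact h1
  have h4 : IsUnit (Ideal.Quotient.mk (Ideal.span {(PowerSeries.X : PowerSeries (D.Ln n))})
      (G.derivative.eval b₀)) := by
    apply IsUnit.map
    rw [isUnit_iff, ← hev f.derivative G.derivative hder b₀ a₀ hb₀, hιc] at h2
    rw [PowerSeries.isUnit_iff_constantCoeff, isUnit_iff_ne_zero]
    intro h
    apply h2
    rw [PowerSeries.coeff_zero_eq_constantCoeff_apply, h]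
    rfl
  obtain ⟨b, hb1, hb2⟩ := HenselianRing.is_henselian G hGm b₀ h3 h4
  rw [Ideal.mem_span_singleton, PowerSeries.X_dvd_iff, map_sub, sub_eq_zero] at hb2
  have hb3 : PowerSeries.coeff 0 (ι b) = PowerSeries.coeff 0 (a₀ : PowerSeries D.L) := by
    rw [← hb₀, hιc, hιc, PowerSeries.coeff_zero_eq_constantCoeff_apply,
      PowerSeries.coeff_zero_eq_constantCoeff_apply, hb2]
  have hmem : ι b ∈ RR D := by
    refine ⟨⟨n, fun i => ?_⟩, ?_⟩
    · rw [hιc]
      exact (PowerSeries.coeff i b).2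
    · rw [hb3]
      exact a₀.2.2
  refine ⟨⟨ι b, hmem⟩, ?_, ?_⟩
  · apply Subtype.ext
    rw [← hev f G hG b ⟨ι b, hmem⟩ rfl, hb1.eq_zero, map_zero]
    rfl
  · rw [mem_max_iff]
    change PowerSeries.coeff 0 (ι b - (a₀ : PowerSeries D.L)) = 0
    rw [map_sub, hb3, sub_self]

end Pool.Agent.Y275.EX
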